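import Pool.Agent.U536.CF.TU
import Pool.Agent.Results.MP_90c6bd_nt.MultiplicativeValues
import Pool.Agent.U536.CF.TN

/-!
# Lang's lower bound near integers with large common factors with the values of multiplicative functions

Let `F_1, ..., F_(2n)` be positive multiplicative functions of at most polynomial growth such that `F_i p ≤ M p` for the
large primes `p`, with different values at different large primes; for example Euler's function or the sum of the
divisors. Let `b < 1` and `0 ≤ c < 2 b - 1`. Let `n ≥ 1`, `θ ≥ 0` and `n θ < 1`. For all tuples `m` in `[1, N]^(2n)` but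
`N^(2n) exp (-(log N)^c)`, for EVERY tuple `w` of integers `w_i ≥ exp ((log N)^b)` such that `gcd(w_i, F_i(m_i)) ≥ w_j^ρ`
for all `i`, `j`, for ALL positive integers `α_i = u_i w_i + v_i` with `u_i ≠ 0` and `|u_i|, |v_i| ≤ w_l^η` for some `l`,
the rational numbers `a_j = α_j / α_(n+j)` (`1 ≤ j ≤ n`) satisfy Lang's inequality with `C = 1` and without loss in the
exponent, `|B_1 log a_1 + … + B_n log a_n| > B / ∏ B_j A_j²`, for ALL integral `B ≠ 0` with `|B_j| ≤ (max_i α_i)^θ`; `η >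
0` and `ρ < 1` depend only on `n` and `θ`. The tuples `w` include all tuples of large divisors `w_i` of the `F_i(m_i)` of
comparable size and their multiples by small integers.

Proof. But for few exceptional `m_i ≤ N`, the number of `m_i` with `g ∣ F_i(m_i)` is at most `N τ_J(g) / g` up to a factor
`exp ((log N)^s)`, `J = (log N)^a`, `a < s < b`, for all `g`: write `m_i = k u` with `u` squarefree and composed of primes
larger than `N^(1/J)`, `k ≤ exp (4 (log N)^a)`. If `w` is an exceptional tuple with `w_i ≤ X`, then the `g_i = gcd(w_i,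
F_i(m_i))` are divisors of the `w_i` of size `≥ (X/2)^ρ`; there are few such tuples of divisors, and the inequality `τ_J^q
≤ τ_K` for `K ≥ J^q` with Hölder's inequality for tuples bounds the sum of `∏ τ_J(g_i) / g_i`. The file
`MultiplicativeValues` of the starting library treats the tuples `w = (F_i(m_i))` only, with `N^k / (log N)^U` exceptions.
-/

set_option autoImplicit false

namespace Pool.Agent.Results.MP_90c6bd_nt.CommonFactors

open Pool.Agent.N733.TG (LM lm_totient lm_sigma)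
open Pool.Agent.U536.CF (CommonT common_near commonT_of_dvd)
open Pool.Agent.Results.MP_90c6bd_nt.MultiplicativeValues (maxB prodBA rats Lam Exc count)

/-- **Lang's lower bound near integers with large common factors with the values of multiplicative functions.** Let `n ≥ 1`,
`θ ≥ 0` and `n θ < 1`. Let the `F_i` be multiplicative and positive, of at most polynomial growth, with `F_i p ≤ M p` at
the large primes, and injective there. Let `b < 1` and `0 ≤ c < 2 b - 1`. For all large `N`, for all tuples `m` in `[1,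
N]^(2n)` but `N^(2n) exp (-(log N)^c)`, for EVERY tuple `w` of integers `w_i ≥ exp ((log N)^b)` with `gcd(w_i, F_i(m_i)) ≥
w_j^ρ` for all `i`, `j`, for ALL positive integers `α_i = u_i w_i + v_i` with `u_i ≠ 0` and `|u_i|, |v_i| ≤ w_l^η` for
some `l`, the rational numbers `a_j = α_j / α_(n+j)` (`1 ≤ j ≤ n`) satisfy Lang's inequality with `C = 1` and without loss
in the exponent, `|B_1 log a_1 + … + B_n log a_n| > B / ∏ B_j A_j²`, for ALL integral `B ≠ 0` with `|B_j| ≤ (max_i
α_i)^θ`; `η > 0` and `ρ < 1` depend only on `n` and `θ`. Tuples of divisors `w_i ≥ exp ((log N)^b)` of the `F_i(m_i)` with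
`w_j^ρ ≤ w_i` for all `i`, `j` are such tuples. Euler's function and the sum of the divisors are examples of the `F_i`. -/
theorem result :
    (∀ (n : ℕ), 1 ≤ n → ∀ θ : ℝ, 0 ≤ θ → n * θ < 1 → ∃ η ρ : ℝ, 0 < η ∧ 0 < ρ ∧ ρ < 1 ∧
      ∀ F : Fin (n + n) → ℕ → ℕ, (∀ i, LM (F i)) → ∀ b c : ℝ, b < 1 → 0 ≤ c → c < 2 * b - 1 → ∃ N₀ : ℕ, ∀ N : ℕ, N₀ ≤ N →
      ({m : Fin (n + n) → ℕ | (∀ i, 1 ≤ m i ∧ m i ≤ N) ∧ ¬ ∀ w : Fin (n + n) → ℕ, CommonT F b ρ N m w →
        ∀ u v α : Fin (n + n) → ℤ,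
        (∃ l, ∀ i, u i ≠ 0 ∧ |(u i : ℝ)| ≤ (w l : ℝ) ^ η ∧ |(v i : ℝ)| ≤ (w l : ℝ) ^ η) →
        (∀ i, α i = u i * (w i : ℤ) + v i ∧ 0 < α i) →
        ∀ B : Fin n → ℤ, B ≠ 0 → (∃ l, ∀ j, |(B j : ℝ)| ≤ (α l : ℝ) ^ θ) →
          (maxB B : ℝ) / (prodBA (rats α) B : ℝ) < |Lam (rats α) B|}.ncard : ℝ) ≤
        (N : ℝ) ^ (n + n) * Real.exp (-(Real.log N ^ c))) ∧
    (LM Nat.totient ∧ LM (fun m => ∑ d ∈ m.divisors, d)) ∧
    ∀ (k : ℕ) (F : Fin k → ℕ → ℕ) (b ρ : ℝ) (N : ℕ) (m w : Fin k → ℕ), (∀ i, Real.exp (Real.log N ^ b) ≤ (w i : ℝ)) →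
      (∀ i, w i ∣ F i (m i)) → (∀ i j, (w j : ℝ) ^ ρ ≤ (w i : ℝ)) → CommonT F b ρ N m w := by
  refine ⟨?_, ⟨lm_totient, lm_sigma⟩, fun k F b ρ N m w h1 h2 h3 => commonT_of_dvd h1 h2 h3⟩
  intro n hn θ hθ0 hθ
  obtain ⟨C, hC⟩ := count n hn θ hθ0 hθ
  obtain ⟨η, ρ, hη, hρ0, hρ1, h⟩ := common_near (k := n + n) (by omega) (c := (1 - n * θ) / 2) (by linarith)
  refine ⟨η, ρ, hη, hρ0, hρ1, fun F hF b c hb hc hcb => ?_⟩
  obtain ⟨N₀, hN₀⟩ := h F hF C b c hb hc hcb
  refine ⟨N₀, fun N hN => ?_⟩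
  refine le_trans (le_of_eq ?_) (hN₀ N hN (Exc n θ) hC)
  congr 2
  ext m
  simp only [Set.mem_ofPred_eq]
  refine and_congr_right fun _ => not_congr (forall_congr' fun w => forall_congr' fun _ => ?_)
  constructor
  · intro h1 u v hl hE
    obtain ⟨hpos, B, hB, h4, h5⟩ := hE
    exact absurd (h1 u v _ hl (fun i => ⟨rfl, hpos i⟩) B hB h4) (not_lt.2 h5)
  · intro h1 u v α hl h3 B hB h4
    by_contra hcon
    refine h1 u v hl ?_
    have h7 : (fun i => u i * (w i : ℤ) + v i) = α := by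
      funext i
      exact (h3 i).1.symm
    rw [h7]
    exact ⟨fun i => (h3 i).2, B, hB, h4, not_lt.1 hcon⟩

end Pool.Agent.Results.MP_90c6bd_nt.CommonFactors
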