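import Pool.Agent.U536.DS.TN
import Pool.Agent.Results.MP_90c6bd_nt.MultiplicativeValues

/-!
# Lang's lower bound near the integral combinations of two divisors of the values of multiplicative functions

Let `F_1, ..., F_(2n)` be positive multiplicative functions of at most polynomial growth such that `F_i p ≤ M p` for the
large primes `p`, with different values at different large primes; for example Euler's function or the sum of the divisors.
Let `b < 1`, `μ < b` and `0 ≤ c < 2 b - 1`. Let `n ≥ 1`, `θ ≥ 0` and `n θ < 1`. For all tuples `m` in `[1, N]^(2n)` but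
`N^(2n) exp (-(log N)^c)`, for EVERY tuple `w` of integers `w_i ≥ exp ((log N)^b)` of the form `w_i = r s + q t` with divisors
`s`, `t` of `F_i(m_i)` and integers `|r|, |q| ≤ exp ((log N)^μ)` (depending on `i`), such that `w_i ≥ w_j^ρ` for all `i`,
`j`, for ALL positive integers `α_i = u_i w_i + v_i` with `u_i ≠ 0` and `|u_i|, |v_i| ≤ w_l^η` for some `l`, the rational
numbers `a_j = α_j / α_(n+j)` (`1 ≤ j ≤ n`) satisfy Lang's inequality with `C = 1` and without loss in the exponent,
`|B_1 log a_1 + … + B_n log a_n| > B / ∏ B_j A_j²`, for ALL integral `B ≠ 0` with `|B_j| ≤ (max_i α_i)^θ`; `η > 0` and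
`ρ < 1` depend only on `n` and `θ`. The tuples `w` include all tuples of comparable size of large sums and differences `w_i`
of ANY two divisors of the `F_i(m_i)`.

Proof. But for few exceptional `m_i ≤ N`, the number of `m_i` with `g ∣ F_i(m_i)` is at most `N τ_J(g) / g` up to a factor
`exp ((log N)^s)`, `J = (log N)^a`, `a < s < b`, for all `g`: write `m_i = k u` with `u` squarefree and composed of primes
larger than `N^(1/J)`, `k ≤ exp (4 (log N)^a)`. Take for `g` the least common multiples of the pairs `(s, t)`: the sum of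
`1 / [s, t]` over the pairs `s, t ≤ X` with `r s + q t = w` is at most `4 U (1 + log X) τ(w) / w` if `|r|, |q| ≤ U`; the
exceptional tuples `w` are few, and the inequality `τ_J^q ≤ τ_K` for `K ≥ J^q` with Hölder's inequality for tuples bounds the
sum over the tuples of pairs. The tuples of the hand-in `CommonFactors` of this page have large common factors with the
`F_i(m_i)`; the sums and differences of two divisors of `F_i(m_i)` have in general none. The file `MultiplicativeValues` of
the starting library treats the tuples `w = (F_i(m_i))` only, with `N^k / (log N)^U` exceptions.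
-/

set_option autoImplicit false

namespace Pool.Agent.Results.MP_90c6bd_nt.DivisorSums

open Pool.Agent.N733.TG (LM lm_totient lm_sigma)
open Pool.Agent.U536.DS (CombT comb_near combT_pm)
open Pool.Agent.Results.MP_90c6bd_nt.MultiplicativeValues (maxB prodBA rats Lam Exc count)

/-- **Lang's lower bound near the integral combinations of two divisors of the values of multiplicative functions.** Let
`n ≥ 1`, `θ ≥ 0` and `n θ < 1`. Let the `F_i` be multiplicative and positive, of at most polynomial growth, with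
`F_i p ≤ M p` at the large primes, and injective there. Let `b < 1`, `μ < b` and `0 ≤ c < 2 b - 1`. For all large `N`, for
all tuples `m` in `[1, N]^(2n)` but `N^(2n) exp (-(log N)^c)`, for EVERY tuple `w` of integers `w_i ≥ exp ((log N)^b)` of the
form `w_i = r s + q t` with divisors `s`, `t` of `F_i(m_i)` and integers `|r|, |q| ≤ exp ((log N)^μ)` (depending on `i`),
with `w_i ≥ w_j^ρ` for all `i`, `j`, for ALL positive integers `α_i = u_i w_i + v_i` with `u_i ≠ 0` and
`|u_i|, |v_i| ≤ w_l^η` for some `l`, the rational numbers `a_j = α_j / α_(n+j)` (`1 ≤ j ≤ n`) satisfy Lang's inequality with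
`C = 1` and without loss in the exponent, `|B_1 log a_1 + … + B_n log a_n| > B / ∏ B_j A_j²`, for ALL integral `B ≠ 0` with
`|B_j| ≤ (max_i α_i)^θ`; `η > 0` and `ρ < 1` depend only on `n` and `θ`. The tuples of sums and differences
`w_i ≥ exp ((log N)^b)` of two divisors of the `F_i(m_i)` with `w_j^ρ ≤ w_i` for all `i`, `j` are such tuples. Euler's
function and the sum of the divisors are examples of the `F_i`. -/
theorem result :
    (∀ (n : ℕ), 1 ≤ n → ∀ θ : ℝ, 0 ≤ θ → n * θ < 1 → ∃ η ρ : ℝ, 0 < η ∧ 0 < ρ ∧ ρ < 1 ∧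
      ∀ F : Fin (n + n) → ℕ → ℕ, (∀ i, LM (F i)) → ∀ b μ c : ℝ, μ < b → b < 1 → 0 ≤ c → c < 2 * b - 1 →
      ∃ N₀ : ℕ, ∀ N : ℕ, N₀ ≤ N →
      ({m : Fin (n + n) → ℕ | (∀ i, 1 ≤ m i ∧ m i ≤ N) ∧ ¬ ∀ w : Fin (n + n) → ℕ, CombT F b μ ρ N m w →
        ∀ u v α : Fin (n + n) → ℤ,
        (∃ l, ∀ i, u i ≠ 0 ∧ |(u i : ℝ)| ≤ (w l : ℝ) ^ η ∧ |(v i : ℝ)| ≤ (w l : ℝ) ^ η) →
        (∀ i, α i = u i * (w i : ℤ) + v i ∧ 0 < α i) →
        ∀ B : Fin n → ℤ, B ≠ 0 → (∃ l, ∀ j, |(B j : ℝ)| ≤ (α l : ℝ) ^ θ) →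
          (maxB B : ℝ) / (prodBA (rats α) B : ℝ) < |Lam (rats α) B|}.ncard : ℝ) ≤
        (N : ℝ) ^ (n + n) * Real.exp (-(Real.log N ^ c))) ∧
    (LM Nat.totient ∧ LM (fun m => ∑ d ∈ m.divisors, d)) ∧
    ∀ (k : ℕ) (F : Fin k → ℕ → ℕ) (b μ ρ : ℝ) (N : ℕ) (m w : Fin k → ℕ), (∀ i, Real.exp (Real.log N ^ b) ≤ (w i : ℝ)) →
      (∀ i, ∃ s t : ℕ, s ∣ F i (m i) ∧ t ∣ F i (m i) ∧ (w i = s + t ∨ w i = s - t ∨ w i = s)) →
      (∀ i j, (w j : ℝ) ^ ρ ≤ (w i : ℝ)) → CombT F b μ ρ N m w := by
  refine ⟨?_, ⟨lm_totient, lm_sigma⟩, fun k F b μ ρ N m w h1 h2 h3 => combT_pm h1 h2 h3⟩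
  intro n hn θ hθ0 hθ
  obtain ⟨C, hC⟩ := count n hn θ hθ0 hθ
  obtain ⟨η, ρ, hη, hρ0, hρ1, h⟩ := comb_near (k := n + n) (by omega) (c := (1 - n * θ) / 2) (by linarith)
  refine ⟨η, ρ, hη, hρ0, hρ1, fun F hF b μ c hμ hb hc hcb => ?_⟩
  obtain ⟨N₀, hN₀⟩ := h F hF C μ b c hμ hb hc hcb
  refine ⟨N₀, fun N hN => ?_⟩
  refine le_trans (le_of_eq ?_) (hN₀ N hN (Exc n θ) hC)
  congr 2
  ext m
  simp only [Set.mem_ofPred_eq]
  refine and_congr_right fun _ => not_congr (forall_congr' fun w => forall_congr' fun _ => ?_)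
  constructor
  · intro h1 u v hl hE
    obtain ⟨hpos, B, hB, h4, h5⟩ := hE
    exact absurd (h1 u v _ hl (fun i => ⟨rfl, hpos i⟩) B hB h4) (not_lt.2 h5)
  · intro h1 u v α hl h3 B hB h4
    by_contra hcon
    refine h1 u v hl ?_
    have h7 : (fun i => u i * (w i : ℤ) + v i) = α := by
      funext i
      exact (h3 i).1.symm
    rw [h7]
    exact ⟨fun i => (h3 i).2, B, hB, h4, not_lt.1 hcon⟩

end Pool.Agent.Results.MP_90c6bd_nt.DivisorSums
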