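import Pool.Agent.U449.BV.V
import Pool.Agent.Results.MP_90c6bd_nt.MultiplicativeValues

/-!
# Lang's lower bound for all rationals near the coordinates of polynomials in two variables on arbitrary sets

Let `θ ≥ 0`, `n θ < 1`, `k = 2 n`, `κ ≥ 0`, `k - (1 - n θ) / 2 + k κ < δ ≤ k`, let `p` be a large prime, `f(x, y)` ANY polynomial of bounded
degree over the field of `p ^ k` elements with a monomial which contains both variables (for example `f = x y`), let `A`, `B` be
ARBITRARY subsets of this field with at least `p ^ δ` elements, and `g`, `h` ARBITRARY functions. For all the pairs `(a, b)` in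
`A × B`, apart from a proportion of at most `p ^ (-ρ)`, ALL `n`-tuples of positive rationals whose numerators and denominators can be
written as `α_i` (they need not be coprime) at a distance of at most `p ^ κ` from the least residues of the `k` coordinates of
`f(a, b) + g(a) + h(b)` satisfy Lang's inequality with `C = 1` and without `ε`, for ALL nonzero integer vectors `b` with
`max |b_j| ≤ (max α) ^ θ`. More generally, this holds for the values `F(a, b)` of all vector functions of two variables with few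
coincidences (`RareV`), on arbitrary finite sets.

Since the sets and the functions `g` and `h` are arbitrary, the vectors have no arithmetic structure, and a vector may be
taken by very many pairs. So the number of the exceptions (starting library) does not give the result directly. Proof: the
inequality of Cauchy and Schwarz; for most pairs `a, a'` the difference `F(a, b) - F(a', b)` is small for few `b`
(`Pool.Agent.U449.BV`).
-/

set_option autoImplicit false

namespace Pool.Agent.Results.MP_90c6bd_nt.MixedPolynomials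

open Pool.Agent.U449.BV (RareV OnProductsV on_products_v coordinates)
open Pool.Agent.Results.MP_90c6bd_nt.MultiplicativeValues (Lam maxB prodBA rats Exc count)

/-- Lang's inequality with `C = 1` and without `ε` holds for the rationals with the numerators `α_1, …, α_n` and the
denominators `α_(n+1), …, α_(2n)` and all integer vectors `b ≠ 0` with `max |b_j| ≤ (max α) ^ θ`. -/
def LangBound {n : ℕ} (θ : ℝ) (α : Fin (n + n) → ℤ) : Prop :=
  ∀ b : Fin n → ℤ, b ≠ 0 → (∃ l, ∀ j, |(b j : ℝ)| ≤ (α l : ℝ) ^ θ) →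
    (maxB b : ℝ) / (prodBA (rats α) b : ℝ) < |Lam (rats α) b|

/-- ALL tuples `α` of `2 n` positive integers with `|α_i - x_i| ≤ W` for all `i` satisfy `LangBound`. -/
def Near {n : ℕ} (θ W : ℝ) (x : Fin (n + n) → ℝ) : Prop :=
  ∀ α : Fin (n + n) → ℤ, (∀ i, 0 < α i) → (∀ i, |(α i : ℝ) - x i| ≤ W) → LangBound θ α

theorem exceptions {n : ℕ} (hn : 1 ≤ n) {θ : ℝ} (hθ0 : 0 ≤ θ) (hθ : n * θ < 1) :
    ∀ ε : ℝ, 0 < ε → ∃ C : ℝ, ∀ X : ℝ, 1 ≤ X →
      {α | α ∈ Exc n θ ∧ ∀ i, |(α i : ℝ)| ≤ X}.Finite ∧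
        ({α | α ∈ Exc n θ ∧ ∀ i, |(α i : ℝ)| ≤ X}.ncard : ℝ) ≤ C * X ^ ((((n + n : ℕ) : ℝ) - (1 - n * θ) / 2) + ε) := by
  intro ε hε
  obtain ⟨C, hC⟩ := count n hn θ hθ0 hθ
  have hn1 : (1 : ℝ) ≤ n := by exact_mod_cast hn
  have hnθ : 0 ≤ n * θ := by positivity
  have hs : 0 ≤ ((n + n : ℕ) : ℝ) - (1 - n * θ) / 2 := by
    push_cast
    linarith
  refine ⟨|C|, fun X hX => ?_⟩
  have hX0 : 0 < X := by linarith
  have hX1 : 1 ≤ ⌊X⌋₊ := Nat.le_floor (by exact_mod_cast hX)
  have hsub : {α | α ∈ Exc n θ ∧ ∀ i, |(α i : ℝ)| ≤ X} ⊆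
      {α : Fin (n + n) → ℤ | (∀ i, |α i| ≤ ((⌊X⌋₊ : ℕ) : ℤ)) ∧ α ∈ Exc n θ} := by
    rintro α ⟨h1, h2⟩
    refine ⟨fun i => ?_, h1⟩
    have h3 := h2 i
    have h4 : ((α i).natAbs : ℝ) ≤ X := by
      rw [Nat.cast_natAbs, Int.cast_abs]
      exact h3
    have h5 : (α i).natAbs ≤ ⌊X⌋₊ := Nat.le_floor h4
    rw [Int.abs_eq_natAbs]
    exact_mod_cast h5
  have hfin : {α : Fin (n + n) → ℤ | (∀ i, |α i| ≤ ((⌊X⌋₊ : ℕ) : ℤ)) ∧ α ∈ Exc n θ}.Finite := by
    apply (Set.Finite.pi' fun _ : Fin (n + n) => Set.finite_Icc (-((⌊X⌋₊ : ℕ) : ℤ)) ((⌊X⌋₊ : ℕ) : ℤ)).subset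
    intro m hm i
    exact abs_le.1 (hm.1 i)
  refine ⟨hfin.subset hsub, ?_⟩
  have h1 : ({α | α ∈ Exc n θ ∧ ∀ i, |(α i : ℝ)| ≤ X}.ncard : ℝ) ≤
      ({α : Fin (n + n) → ℤ | (∀ i, |α i| ≤ ((⌊X⌋₊ : ℕ) : ℤ)) ∧ α ∈ Exc n θ}.ncard : ℝ) := by
    exact_mod_cast Set.ncard_le_ncard hsub hfin
  have h2 : ((⌊X⌋₊ : ℕ) : ℝ) ^ (((n + n : ℕ) : ℝ) - (1 - n * θ) / 2) ≤
      X ^ ((((n + n : ℕ) : ℝ) - (1 - n * θ) / 2) + ε) :=
    (Real.rpow_le_rpow (Nat.cast_nonneg _) (Nat.floor_le hX0.le) hs).trans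
      (Real.rpow_le_rpow_of_exponent_le hX (by linarith))
  refine h1.trans ((hC ⌊X⌋₊ hX1).trans ?_)
  exact (mul_le_mul_of_nonneg_right (le_abs_self C) (by positivity)).trans
    (mul_le_mul_of_nonneg_left h2 (abs_nonneg C))

/-- **Theorem.** Let `n ≥ 1`, `θ ≥ 0`, `n θ < 1`. For all `κ ≥ 0` the property `Near`, with windows of length `X ^ κ`, holds for almost all
values of vector functions of two variables with `2 n` coordinates and few coincidences, on arbitrary finite sets of at least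
`X ^ δ` elements, `2 n - (1 - n θ) / 2 + 2 n κ < δ ≤ 2 n` (`OnProductsV`).
The tuples of the least residues modulo `p` of the coordinates (with respect to a basis over the field of `p` elements) of
`f(a, b) + g(a) + h(b)` in a field of `p ^ k` elements are such a function, with `X = p`, for all polynomials `f` over this
field with a monomial which contains both variables, arbitrary functions `g` and `h`, and arbitrary finite subsets. -/
theorem result :
    (∀ n : ℕ, 1 ≤ n → ∀ θ : ℝ, 0 ≤ θ → n * θ < 1 → ∀ κ : ℝ, 0 ≤ κ →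
      OnProductsV (n + n) (((n + n : ℕ) : ℝ) - (1 - n * θ) / 2 + ((n + n : ℕ) : ℝ) * κ) κ (Near θ)) ∧
    ∀ (p : ℕ) [Fact p.Prime] (k : ℕ) (K : Type) [Field K] [Algebra (ZMod p) K] (e : Module.Basis (Fin k) (ZMod p) K)
      (d : ℕ) (f : MvPolynomial (Fin 2) K), f.totalDegree ≤ d → (∃ m ∈ f.support, m 0 ≠ 0 ∧ m 1 ≠ 0) →
      ∀ (g h : K → K) (A B : Finset K),
        RareV d A B (fun a b i => (((e.repr (MvPolynomial.eval ![a, b] f + g a + h b) i).val : ℕ) : ℝ)) := by
  refine ⟨fun n hn θ hθ0 hθ κ hκ => ?_, coordinates⟩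
  have hn1 : (1 : ℝ) ≤ n := by exact_mod_cast hn
  have hnθ : 0 ≤ n * θ := by positivity
  have hs : 0 ≤ ((n + n : ℕ) : ℝ) - (1 - n * θ) / 2 := by
    push_cast
    linarith
  refine (on_products_v (Exc n θ) (fun α i => (α i : ℝ)) hs hκ (exceptions hn hθ0 hθ)).mono ?_
  intro W x _ h α hα hnear b hb hbα
  by_contra hcon
  push Not at hcon
  exact h α hnear ⟨hα, b, hb, hbα, hcon⟩

end Pool.Agent.Results.MP_90c6bd_nt.MixedPolynomials
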