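import Pool.Agent.U405.RS.G5
import Pool.Agent.Results.MP_90c6bd_nt.MultiplicativeValues

/-!
# Lang's lower bound for all rationals near values of multiplicative functions in thin sets

Let `F_1, …, F_(2n)` be positive multiplicative functions of at most polynomial growth which for each `a ≥ 1` are injective at
the powers `p ^ a` of the large primes and at most `M p ^ a` there; for example Euler's function, the sum of the divisors or the
identity. Let `θ ≥ 0`, `κ ≥ 0` and `2 n κ < (1 - n θ) / 2`. For almost all `m` in products of thin sets, ALL positive rationals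
`α_1 / α_(n+1), …, α_n / α_(2n)` (the fractions may be reducible) whose numerators and denominators `α_i` have a distance of at most
`(max F_j(m_j)) ^ κ` from `F_i(m_i)` satisfy Lang's inequality with `C = 1` and without `ε`, for ALL nonzero integer vectors `b` with
`max |b_j| ≤ (max α) ^ θ`.

Each `m_i` runs over a thin set: the shifted primes `p + a_i`, `p ≤ x`, for an arbitrary integer `a_i`, or an interval `(u, u + h]`
with `x^τ ≤ h ≤ x`, where `u ≤ x`; both kinds can be mixed. The starting theorem `MultiplicativeValues` of this problem treats the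
rationals near the values on the average over all tuples `m ∈ [1, N]^(2n)`. The tuples of values are taken with large and uneven multiplicities, so that the number
of the exceptional tuples of integers says nothing about them.

Proof. The tool `Pool.Agent.U405.RS` (Brun-Titchmarsh inequality, a weighted form of Rankin's method, fibres over slabs) and the
count of the exceptional tuples of integers in the starting file; each exceptional tuple excludes the tuples in a cube.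
-/

set_option autoImplicit false

namespace Pool.Agent.Results.MP_90c6bd_nt.ThinTuples

open Pool.Agent.U405.RS
open Pool.Agent.Results.MP_90c6bd_nt.MultiplicativeValues (Lam maxB prodBA rats Exc count)

/-- Lang's inequality with `C = 1` and without `ε` holds for the rationals with the numerators `α_1, …, α_n` and the
denominators `α_(n+1), …, α_(2n)` and all integer vectors `b ≠ 0` with `max |b_j| ≤ (max α) ^ θ`. -/
def LangBound {n : ℕ} (θ : ℝ) (α : Fin (n + n) → ℤ) : Prop :=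
  ∀ b : Fin n → ℤ, b ≠ 0 → (∃ l, ∀ j, |(b j : ℝ)| ≤ (α l : ℝ) ^ θ) →
    (maxB b : ℝ) / (prodBA (rats α) b : ℝ) < |Lam (rats α) b|

/-- ALL tuples `α` of `2 n` positive integers with `|α_i - v_i| ≤ (max v) ^ κ` for all `i` satisfy `LangBound`. -/
def Near {n : ℕ} (θ κ : ℝ) (v : Fin (n + n) → ℕ) : Prop :=
  ∀ α : Fin (n + n) → ℤ, (∀ i, 0 < α i) → (∃ l, ∀ i, |(α i : ℝ) - (v i : ℝ)| ≤ (v l : ℝ) ^ κ) → LangBound θ α

theorem bad_count {n : ℕ} (hn : 1 ≤ n) {θ κ : ℝ} (hθ0 : 0 ≤ θ) (hθ : n * θ < 1) (hκ : 0 ≤ κ) (hκ1 : κ ≤ 1) :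
    ∃ C : ℝ, ∀ X : ℕ, 1 ≤ X →
      ({w : Fin (n + n) → ℕ | (∀ i, 2 ≤ w i ∧ w i ≤ X) ∧ ¬ Near θ κ w}.ncard : ℝ) ≤
        C * (X : ℝ) ^ (((n + n : ℕ) : ℝ) - ((1 - n * θ) / 2 - ((n + n : ℕ) : ℝ) * κ)) := by
  classical
  obtain ⟨C, hC⟩ := count n hn θ hθ0 hθ
  have hn1 : (1 : ℝ) ≤ n := by exact_mod_cast hn
  have hnθ : 0 ≤ n * θ := by positivity
  obtain ⟨s, hs⟩ : ∃ s : ℝ, s = ((n + n : ℕ) : ℝ) - (1 - n * θ) / 2 := ⟨_, rfl⟩
  refine ⟨|C| * 2 ^ s * 3 ^ (n + n), fun X hX => ?_⟩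
  have hX1 : (1 : ℝ) ≤ X := by exact_mod_cast hX
  have hX0 : (0 : ℝ) < X := by linarith
  obtain ⟨W, hW⟩ : ∃ W : ℕ, W = ⌊(X : ℝ) ^ κ⌋₊ := ⟨_, rfl⟩
  have hWX : W ≤ X := by
    rw [hW]
    apply Nat.floor_le_of_le
    calc (X : ℝ) ^ κ ≤ (X : ℝ) ^ (1 : ℝ) := Real.rpow_le_rpow_of_exponent_le hX1 hκ1
      _ = X := Real.rpow_one _
  have hfin : {α : Fin (n + n) → ℤ | (∀ i, |α i| ≤ ((2 * X : ℕ) : ℤ)) ∧ α ∈ Exc n θ}.Finite := by
    apply (Set.Finite.pi' fun _ : Fin (n + n) => Set.finite_Icc (-((2 * X : ℕ) : ℤ)) ((2 * X : ℕ) : ℤ)).subset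
    intro m hm i
    exact abs_le.1 (hm.1 i)
  obtain ⟨B, hB⟩ : ∃ B : Finset (Fin (n + n) → ℤ), B = Fintype.piFinset (fun _ => Finset.Icc (-(W : ℤ)) (W : ℤ)) :=
    ⟨_, rfl⟩
  have hBc : (B.card : ℝ) ≤ (3 * (X : ℝ) ^ κ) ^ (n + n) := by
    rw [hB, Fintype.card_piFinset, Finset.prod_const, Finset.card_univ, Fintype.card_fin, Int.card_Icc]
    have e1 : ((W : ℤ) + 1 - -(W : ℤ)).toNat = 2 * W + 1 := by omega
    rw [e1]
    push_cast
    have e2 : (W : ℝ) ≤ (X : ℝ) ^ κ := by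
      rw [hW]
      exact Nat.floor_le (by positivity)
    have e3 : (1 : ℝ) ≤ (X : ℝ) ^ κ := Real.one_le_rpow hX1 hκ
    exact pow_le_pow_left₀ (by positivity) (by linarith) _
  obtain ⟨Bad, hBad⟩ : ∃ Bad : Set (Fin (n + n) → ℕ),
      Bad = {w : Fin (n + n) → ℕ | (∀ i, 2 ≤ w i ∧ w i ≤ X) ∧ ¬ Near θ κ w} := ⟨_, rfl⟩
  rw [← hBad]
  have hsub : (fun (w : Fin (n + n) → ℕ) (i : Fin (n + n)) => (w i : ℤ)) '' Bad ⊆
      (((hfin.toFinset ×ˢ B).image (fun z => fun i => z.1 i - z.2 i) : Finset (Fin (n + n) → ℤ)) :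
        Set (Fin (n + n) → ℤ)) := by
    rintro _ ⟨w, hw, rfl⟩
    rw [hBad] at hw
    obtain ⟨h1, h2⟩ := hw
    unfold Near at h2
    push Not at h2
    obtain ⟨α, hα, ⟨l, hl⟩, hbad⟩ := h2
    have hαw : ∀ i, |α i - (w i : ℤ)| ≤ (W : ℤ) := by
      intro i
      have e1 : |(α i : ℝ) - w i| ≤ (X : ℝ) ^ κ :=
        (hl i).trans (Real.rpow_le_rpow (Nat.cast_nonneg _) (by exact_mod_cast (h1 l).2) hκ)
      have e2 : ((α i - (w i : ℤ)).natAbs : ℝ) ≤ (X : ℝ) ^ κ := by
        rw [Nat.cast_natAbs, Int.cast_abs]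
        push_cast
        exact e1
      have e3 : (α i - (w i : ℤ)).natAbs ≤ W := by
        rw [hW]
        exact Nat.le_floor e2
      rw [Int.abs_eq_natAbs]
      exact_mod_cast e3
    rw [Finset.coe_image, Set.mem_image]
    refine ⟨(α, fun i => α i - (w i : ℤ)), ?_, ?_⟩
    · rw [Finset.mem_coe, Finset.mem_product]
      refine ⟨?_, ?_⟩
      · rw [Set.Finite.mem_toFinset]
        refine ⟨fun i => ?_, ?_⟩
        · have e1 := abs_le.1 (hαw i)
          have e2 := (h1 i).2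
          have e3 := hα i
          rw [abs_le]
          constructor <;> push_cast <;> omega
        · unfold LangBound at hbad
          push Not at hbad
          obtain ⟨b, hb, hbl, hlt⟩ := hbad
          exact ⟨hα, b, hb, hbl, hlt⟩
      · rw [hB, Fintype.mem_piFinset]
        intro i
        rw [Finset.mem_Icc]
        exact abs_le.1 (hαw i)
    · funext i
      simp
  have hinj : Function.Injective (fun (w : Fin (n + n) → ℕ) (i : Fin (n + n)) => (w i : ℤ)) := by
    intro v v' h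
    funext i
    have h5 : (v i : ℤ) = (v' i : ℤ) := congrFun h i
    exact_mod_cast h5
  have hcard := Set.ncard_le_ncard hsub (Finset.finite_toSet _)
  rw [Set.ncard_image_of_injective _ hinj, Set.ncard_coe_finset] at hcard
  have hcard2 : Bad.ncard ≤ hfin.toFinset.card * B.card :=
    hcard.trans (Finset.card_image_le.trans (le_of_eq (Finset.card_product _ _)))
  have hE : (hfin.toFinset.card : ℝ) ≤ |C| * (2 ^ s * (X : ℝ) ^ s) := by
    rw [← Set.ncard_eq_toFinset_card _ hfin]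
    refine (hC (2 * X) (by omega)).trans ?_
    rw [← hs]
    have e2 : (((2 * X : ℕ) : ℝ)) ^ s = 2 ^ s * (X : ℝ) ^ s := by
      push_cast
      rw [Real.mul_rpow (by norm_num) hX0.le]
    rw [e2]
    exact mul_le_mul_of_nonneg_right (le_abs_self C) (by positivity)
  calc (Bad.ncard : ℝ) ≤ (hfin.toFinset.card : ℝ) * B.card := by exact_mod_cast hcard2
    _ ≤ (|C| * (2 ^ s * (X : ℝ) ^ s)) * (3 * (X : ℝ) ^ κ) ^ (n + n) :=
      mul_le_mul hE hBc (Nat.cast_nonneg _) (by positivity)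
    _ = _ := by
      have e1 : ((X : ℝ) ^ κ) ^ (n + n) = (X : ℝ) ^ (((n + n : ℕ) : ℝ) * κ) := by
        rw [← Real.rpow_natCast, ← Real.rpow_mul hX0.le, mul_comm]
      have e2 : (X : ℝ) ^ s * (X : ℝ) ^ (((n + n : ℕ) : ℝ) * κ) =
          (X : ℝ) ^ (((n + n : ℕ) : ℝ) - ((1 - n * θ) / 2 - ((n + n : ℕ) : ℝ) * κ)) := by
        rw [← Real.rpow_add hX0]
        congr 1
        rw [hs]
        ring
      rw [mul_pow, e1, ← e2]
      ring

/-- **Lang's lower bound near values of multiplicative functions in thin sets.** Let `n ≥ 1`, `θ ≥ 0`, `κ ≥ 0` and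
`2 n κ < (1 - n θ) / 2`. For all `F_1, …, F_(2n)` in the class `PM` and all `U`, in the sense of `ThinAll c F U`,
`c = (1 - n θ) / 2 - 2 n κ` (with a saving of `(log x)^U`, for almost all `m` in all products `S_1 × ⋯ × S_k`, `k = 2 n`, of
sets of shifted primes `p + a_i`, `p ≤ x`, and intervals `(u, u + h]`, `u ≤ x`, `x^τ ≤ h ≤ x`, whenever `0 < τ ≤ 1`,
`k τ > k - c`), all `F_i(m_i)` are at least `2`, and ALL rationals `α_1 / α_(n+1), …, α_n / α_(2n)` with positive integers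
`|α_i - F_i(m_i)| ≤ (max F_j(m_j)) ^ κ` satisfy Lang's inequality with `C = 1` and without `ε` for all integer vectors `b ≠ 0`
with `max |b_j| ≤ (max α) ^ θ`. Euler's function, the sum of the divisors and the identity are in the class. -/
theorem result :
    (∀ n : ℕ, 1 ≤ n → ∀ θ κ : ℝ, 0 ≤ θ → 0 ≤ κ → ((n + n : ℕ) : ℝ) * κ < (1 - n * θ) / 2 →
      ∀ F : Fin (n + n) → ℕ → ℕ, (∀ i, PM (F i)) → ∀ U : ℕ,
        ThinAll ((1 - n * θ) / 2 - ((n + n : ℕ) : ℝ) * κ) F U
          (fun (_ : Unit) (v : Fin (n + n) → ℕ) => (∀ i, 2 ≤ v i) ∧ Near θ κ v)) ∧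
    (PM Nat.totient ∧ PM (fun m => ∑ d ∈ m.divisors, d) ∧ PM (fun m => m)) := by
  refine ⟨fun n hn θ κ hθ0 hκ h F hF U => ?_, examplesT⟩
  have hn1 : (1 : ℝ) ≤ n := by exact_mod_cast hn
  have hnθ : 0 ≤ n * θ := by positivity
  have h2 : (1 : ℝ) ≤ ((n + n : ℕ) : ℝ) := by
    push_cast
    linarith
  have h3 : κ ≤ ((n + n : ℕ) : ℝ) * κ := le_mul_of_one_le_left hκ h2
  have h4 : 0 ≤ ((n + n : ℕ) : ℝ) * κ := by positivity
  have hθ : n * θ < 1 := by linarith
  obtain ⟨C, hC⟩ := bad_count hn hθ0 hθ hκ (by linarith)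
  exact thinAll_two (by omega) hF (by linarith) C (fun (_ : Unit) (v : Fin (n + n) → ℕ) => Near θ κ v)
    (fun _ X hX => hC X hX) U

end Pool.Agent.Results.MP_90c6bd_nt.ThinTuples
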